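import Mathlib

/-!
Diamond on a set of points of the successor of a singular cardinal, and functions that
diverge along ladders.
-/

set_option autoImplicit false
set_option linter.unusedSectionVars false

universe u

namespace Pool.Agent.Results.MP_82b723_lc.DivergingLadders

open Cardinal Order Set
open scoped Ordinal

variable {W Θ : Type u} [LinearOrder W] [LinearOrder Θ]

/-- diamond on `S`: a sequence of sets `A α ⊆ α` such that for every `Z` the set of the `α ∈ S` with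
`Z ∩ α = A α` is stationary -/
def Diamond (S : Set W) : Prop :=
  ∃ A : W → Set W, (∀ α, A α ⊆ Iio α) ∧
    ∀ Z : Set W, IsStationary {α | α ∈ S ∧ Z ∩ Iio α = A α}

/-- the cofinality of a point -/
noncomputable def cf (γ : W) : Cardinal.{u} := Order.cof (Iio γ)

/-- `h` diverges along `c` at `β`: for every `j` the points `γ < β` of `c` with `h γ ≤ j` are bounded
below `β` -/
def DivergesAt (h : W → Θ) (c : Set W) (β : W) : Prop :=
  ∀ j : Θ, ∃ ξ < β, ∀ γ ∈ c, ξ < γ → γ < β → j < h γ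

/-! ### generalities -/

section General

variable [WellFoundedLT W]

lemma exists_lub {s : Set W} (hb : BddAbove s) : ∃ x, IsLUB s x := by
  have hne : (upperBounds s).Nonempty := hb
  refine ⟨WellFounded.min (wellFounded_lt (α := W)) (upperBounds s) hne,
    WellFounded.min_mem _ _ hne, fun y hy => ?_⟩
  exact not_lt.1 (WellFounded.not_lt_min _ _ hy)

lemma club_Ioi (hS : ∀ w : W, ∃ z, w < z) (w : W) : IsClub (Ioi w) := by
  refine ⟨?_, ?_⟩
  · rintro d hd ⟨y, hy⟩ _ x hx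
    exact lt_of_lt_of_le (hd hy) (hx.1 hy)
  · intro x
    obtain ⟨z, hz⟩ := hS (max x w)
    exact ⟨z, (le_max_right _ _).trans_lt hz, ((le_max_left _ _).trans_lt hz).le⟩

lemma bdd_of_lt {s : Set W} (h : #s < Order.cof W) : BddAbove s :=
  .of_not_isCofinal fun hc => (cof_le hc).not_gt h

/-- the closure points of a function form a club -/
lemma club_closure (hW : ℵ₀ < Order.cof W) (hI : ∀ w : W, #(Iio w) < Order.cof W)
    (hS : ∀ w : W, ∃ z, w < z) (f : W → W) : IsClub {β : W | ∀ ξ < β, f ξ < β} := by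
  refine ⟨?_, ?_⟩
  · intro d hd _ _ x hx ξ hξ
    obtain ⟨t, ht, h⟩ : ∃ t ∈ d, ξ < t := by
      by_contra hcon
      push Not at hcon
      exact absurd (hx.2 hcon) (not_le.2 hξ)
    exact (hd ht ξ h).trans_le (hx.1 ht)
  · intro w
    have h1 : ∀ x : W, ∃ z, x < z ∧ ∀ ξ < x, f ξ < z := by
      intro x
      have h2 : BddAbove (f '' Iio x) := bdd_of_lt (mk_image_le.trans_lt (hI x))
      obtain ⟨b, hb⟩ := h2
      obtain ⟨z, hz⟩ := hS (max b x)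
      exact ⟨z, (le_max_right _ _).trans_lt hz, fun ξ hξ =>
        (hb ⟨ξ, hξ, rfl⟩).trans_lt ((le_max_left _ _).trans_lt hz)⟩
    choose F hF1 hF2 using h1
    let X : ℕ → W := fun n => F^[n] w
    have hX : ∀ n, X (n + 1) = F (X n) := fun n => Function.iterate_succ_apply' F n w
    have hb : BddAbove (range X) := by
      refine bdd_of_lt (lt_of_le_of_lt ?_ hW)
      exact le_aleph0_iff_set_countable.2 (countable_range X)
    obtain ⟨x, hx⟩ := exists_lub hb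
    refine ⟨x, fun ξ hξ => ?_, hx.1 ⟨0, rfl⟩⟩
    obtain ⟨t, ⟨n, rfl⟩, h⟩ : ∃ t ∈ range X, ξ < t := by
      by_contra hcon
      push Not at hcon
      exact absurd (hx.2 hcon) (not_le.2 hξ)
    have h3 := hF2 (X n) ξ h
    rw [← hX] at h3
    exact h3.trans_le (hx.1 ⟨n + 1, rfl⟩)

end General

/-! ### a well-order of type the successor of a cardinal -/

section Succ

variable [WellFoundedLT W] [WellFoundedLT Θ]

lemma mk_W {lam : Cardinal.{u}} (hW : typeLT W = (succ lam).ord) : #W = succ lam := by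
  have h := congrArg Ordinal.card hW
  rwa [Ordinal.card_type, card_ord] at h

lemma cof_W {lam : Cardinal.{u}} (hlam : ℵ₀ ≤ lam) (hW : typeLT W = (succ lam).ord) :
    Order.cof W = succ lam := by
  rw [← Ordinal.cof_type, hW]
  exact (isRegular_succ hlam).cof_ord

lemma mk_Iio_le {lam : Cardinal.{u}} (hW : typeLT W = (succ lam).ord) (w : W) :
    #(Iio w) ≤ lam := by
  rw [← lt_succ_iff]
  have h := Ordinal.typein_lt_type (fun a b : W => a < b) w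
  rw [hW, lt_ord, Ordinal.card_typein] at h
  exact h

lemma exists_gt {lam : Cardinal.{u}} (hlam : ℵ₀ ≤ lam) (hW : typeLT W = (succ lam).ord) (w : W) :
    ∃ z, w < z := by
  by_contra hcon
  push Not at hcon
  have h1 : IsCofinal ({w} : Set W) := fun x => ⟨w, rfl, hcon x⟩
  have h2 := cof_le h1
  rw [cof_W hlam hW, mk_singleton] at h2
  exact absurd (h2.trans (one_le_aleph0.trans hlam)) (not_le.2 (lt_succ lam))

lemma cf_lt {lam : Cardinal.{u}} (hsing : lam.ord.cof < lam) (hW : typeLT W = (succ lam).ord)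
    (w : W) : cf w < lam := by
  refine lt_of_le_of_ne ((cof_le_cardinalMk _).trans (mk_Iio_le hW w)) fun h => ?_
  have h1 := Order.cof_ord_cof (Iio w)
  unfold cf at h
  rw [h] at h1
  exact absurd h1 hsing.ne

/-- a club contains points of every regular cofinality -/
lemma exists_cf {lam : Cardinal.{u}} (hlam : ℵ₀ ≤ lam) (hW : typeLT W = (succ lam).ord)
    {D : Set W} (hD : IsClub D) (w : W) {μ : Cardinal.{u}} (hμ : μ.IsRegular) (hμl : μ ≤ lam) :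
    ∃ γ ∈ D, w < γ ∧ cf γ = μ := by
  have hcof := cof_W hlam hW
  have h1 : IsCofinal (D ∩ Ioi w) := by
    intro x
    obtain ⟨z, hz⟩ := exists_gt hlam hW (max x w)
    obtain ⟨y, hy, hzy⟩ := hD.isCofinal z
    exact ⟨y, ⟨hy, ((le_max_right _ _).trans_lt hz).trans_le hzy⟩,
      ((le_max_left _ _).trans_lt hz).le.trans hzy⟩
  have h2 : succ lam ≤ #(↥(D ∩ Ioi w)) := hcof ▸ cof_le h1
  have h3 : typeLT μ.ord.ToType ≤ typeLT (↥(D ∩ Ioi w)) := by
    rw [Ordinal.type_toType, ord_le, Ordinal.card_type]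
    exact hμl.trans ((le_succ lam).trans h2)
  obtain ⟨f⟩ := Ordinal.type_le_iff.1 h3
  have hno : NoMaxOrder μ.ord.ToType := Cardinal.noMaxOrder hμ.aleph0_le
  have hne : Nonempty μ.ord.ToType := by
    rw [← mk_ne_zero_iff, mk_ord_toType]
    exact hμ.pos.ne'
  let F : μ.ord.ToType → W := fun m => (f m).1
  have hF : StrictMono F := fun a b hab => f.map_rel_iff.2 hab
  have hFD : ∀ m, F m ∈ D ∩ Ioi w := fun m => (f m).2
  have hb : BddAbove (range F) := by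
    refine bdd_of_lt (mk_range_le.trans_lt ?_)
    rw [mk_ord_toType, hcof]
    exact hμl.trans_lt (lt_succ lam)
  obtain ⟨γ, hγ⟩ := exists_lub hb
  have hlt : ∀ m, F m < γ := by
    intro m
    obtain ⟨m', hm'⟩ := hno.exists_gt m
    exact (hF hm').trans_le (hγ.1 ⟨m', rfl⟩)
  refine ⟨γ, ?_, ?_, ?_⟩
  · exact hD.isLUB_mem (t := range F) (by rintro _ ⟨m, rfl⟩; exact (hFD m).1) (range_nonempty F) hγ
  · exact (hFD hne.some).2.trans (hlt _)
  · unfold cf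
    have h4 : StrictMono (fun m => (⟨F m, hlt m⟩ : Iio γ)) := fun a b hab => hF hab
    rw [← cof_congr_of_strictMono h4 ?_, Ordinal.cof_toType, hμ.cof_ord]
    rintro ⟨x, hx⟩
    obtain ⟨_, ⟨m, rfl⟩, h5⟩ : ∃ t ∈ range F, x < t := by
      by_contra hcon
      push Not at hcon
      exact absurd (hγ.2 hcon) (not_le.2 hx)
    exact ⟨_, ⟨m, rfl⟩, h5.le⟩

/-- diamond gives ladders along which nothing diverges -/
theorem ladders_of_diamond {lam μ : Cardinal.{u}} (hlam : ℵ₀ ≤ lam) (hμ : μ.IsRegular)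
    (hμl : μ ≤ lam) (hW : typeLT W = (succ lam).ord) (hΘ : #Θ ≤ lam) {S : Set W}
    (hS : Diamond S) :
    ∃ c : W → Set W, (∀ β, #(c β) ≤ cf β) ∧ ∀ (h : W → Θ) (D : Set W), IsClub D →
      ∃ β ∈ S ∩ D, ¬ DivergesAt h {γ | γ ∈ c β ∧ γ ∈ D ∧ cf γ = μ} β := by
  obtain ⟨A, -, hA⟩ := hS
  have hcof := cof_W hlam hW
  -- the ladders
  have h1 : ∀ β : W, ∃ s : Set W, s ⊆ A β ∧ #s ≤ cf β ∧
      ((∀ ξ < β, ∃ γ ∈ A β, ξ < γ ∧ γ < β) → ∀ ξ < β, ∃ γ ∈ s, ξ < γ ∧ γ < β) := by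
    intro β
    by_cases hβ : ∀ ξ < β, ∃ γ ∈ A β, ξ < γ ∧ γ < β
    · obtain ⟨T, hT, hT'⟩ := exists_cof_eq (Iio β)
      choose F hF using fun t : T => hβ t.1.1 t.1.2
      refine ⟨range F, ?_, ?_, fun _ ξ hξ => ?_⟩
      · rintro _ ⟨t, rfl⟩
        exact (hF t).1
      · unfold cf
        rw [← hT']
        exact mk_range_le
      · obtain ⟨t, ht, h⟩ := hT ⟨ξ, hξ⟩
        exact ⟨F ⟨t, ht⟩, ⟨_, rfl⟩, lt_of_le_of_lt h (hF ⟨t, ht⟩).2.1, (hF ⟨t, ht⟩).2.2⟩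
    · exact ⟨∅, empty_subset _, by simp, fun h => absurd h hβ⟩
  choose c hc1 hc2 hc3 using h1
  refine ⟨c, hc2, fun h D hD => ?_⟩
  -- a cofinal fibre
  let Y : Θ → Set W := fun j => {γ | γ ∈ D ∧ cf γ = μ ∧ h γ = j}
  have h2 : IsCofinal (⋃ j, Y j) := by
    intro w
    obtain ⟨γ, hγ, hw, hcf⟩ := exists_cf hlam hW hD w hμ hμl
    exact ⟨γ, mem_iUnion.2 ⟨h γ, hγ, hcf, rfl⟩, hw.le⟩
  obtain ⟨j, hj⟩ := isCofinal_of_isCofinal_iUnion h2
    (by rw [hcof]; exact hΘ.trans_lt (lt_succ lam))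
  -- limits of the fibre
  have h3 : ∀ ξ : W, ∃ z ∈ Y j, ξ < z := by
    intro ξ
    obtain ⟨z, hz⟩ := exists_gt hlam hW ξ
    obtain ⟨y, hy, hzy⟩ := hj z
    exact ⟨y, hy, hz.trans_le hzy⟩
  choose f hf1 hf2 using h3
  have hcl := club_closure (by rw [hcof]; exact hlam.trans_lt (lt_succ lam))
    (fun w => by rw [hcof]; exact (mk_Iio_le hW w).trans_lt (lt_succ lam))
    (exists_gt hlam hW) f
  have hint := IsClub.inter (by rw [hcof]; exact (hlam.trans_lt (lt_succ lam)).ne') hD hcl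
  obtain ⟨β, ⟨hβS, hβA⟩, hβD, hβf⟩ := hA (Y j) hint
  refine ⟨β, ⟨hβS, hβD⟩, fun hdiv => ?_⟩
  have h4 : ∀ ξ < β, ∃ γ ∈ A β, ξ < γ ∧ γ < β := by
    intro ξ hξ
    refine ⟨f ξ, ?_, hf2 ξ, hβf ξ hξ⟩
    rw [← hβA]
    exact ⟨hf1 ξ, hβf ξ hξ⟩
  obtain ⟨ξ, hξ, hd⟩ := hdiv j
  obtain ⟨γ, hγ, hγ1, hγ2⟩ := hc3 β h4 ξ hξ
  have h5 : γ ∈ Y j := by
    have := hc1 β hγ
    rw [← hβA] at this
    exact this.1
  have h6 := hd γ ⟨hγ, h5.1, h5.2.1⟩ hγ1 hγ2
  rw [h5.2.2] at h6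
  exact lt_irrefl _ h6

/-- the bounded subsets of `λ⁺ × λ` can be enumerated in type `λ⁺` -/
lemma exists_enum {lam : Cardinal.{u}} (hlam : ℵ₀ ≤ lam) (hCH : 2 ^ lam = succ lam)
    (hW : typeLT W = (succ lam).ord) {Λ : Type u} (hΛ : #Λ = lam) :
    ∃ a : W → Set (W × Λ), ∀ (Z : Set (W × Λ)) (γ : W), ∃ ξ, a ξ = {p | p ∈ Z ∧ p.1 < γ} := by
  have h1 : #(Σ w : W, Set (Iio w × Λ)) ≤ #W := by
    rw [mk_sigma, mk_W hW]
    have h2 : ∀ w : W, #(Set (Iio w × Λ)) ≤ succ lam := by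
      intro w
      rw [mk_set, ← hCH]
      refine power_le_power_left two_ne_zero ?_
      rw [mk_prod, lift_id, lift_id, hΛ]
      exact (mul_le_mul' (mk_Iio_le hW w) le_rfl).trans (mul_eq_self hlam).le
    refine (sum_le_sum _ (fun _ => succ lam) h2).trans ?_
    rw [sum_const, lift_id, lift_id, mk_W hW]
    exact (mul_eq_self (hlam.trans (le_succ lam))).le
  obtain ⟨w0⟩ : Nonempty W := by
    rw [← mk_ne_zero_iff, mk_W hW]
    exact (bot_lt_succ lam).ne'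
  obtain ⟨e⟩ := h1
  have : Nonempty (Σ w : W, Set (Iio w × Λ)) := ⟨⟨w0, ∅⟩⟩
  let F : W → Σ w : W, Set (Iio w × Λ) := Function.invFun e
  have hF : ∀ x, F (e x) = x := Function.leftInverse_invFun e.injective
  let v : (Σ w : W, Set (Iio w × Λ)) → Set (W × Λ) := fun q =>
    {p | ∃ h : p.1 < q.1, ((⟨p.1, h⟩ : Iio q.1), p.2) ∈ q.2}
  refine ⟨fun ξ => v (F ξ), fun Z γ => ⟨e ⟨γ, {q | (q.1.1, q.2) ∈ Z}⟩, ?_⟩⟩
  simp only [hF]
  ext p
  constructor
  · rintro ⟨h, h2⟩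
    exact ⟨h2, h⟩
  · rintro ⟨h2, h⟩
    exact ⟨h, h2⟩

lemma mk_Θ {lam : Cardinal.{u}} (hΘ : typeLT Θ = lam.ord.cof.ord) : #Θ = lam.ord.cof := by
  have h := congrArg Ordinal.card hΘ
  rwa [Ordinal.card_type, card_ord] at h

lemma cof_Θ {lam : Cardinal.{u}} (hΘ : typeLT Θ = lam.ord.cof.ord) :
    Order.cof Θ = lam.ord.cof := by
  rw [← Ordinal.cof_type, hΘ, Ordinal.cof_ord_cof]

lemma nonempty_Θ {lam : Cardinal.{u}} (hlam : ℵ₀ ≤ lam) (hΘ : typeLT Θ = lam.ord.cof.ord) :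
    Nonempty Θ := by
  rw [← mk_ne_zero_iff, mk_Θ hΘ, ne_eq, Ordinal.cof_eq_zero]
  intro h
  rw [ord_eq_zero] at h
  rw [h] at hlam
  exact absurd hlam (not_le.2 aleph0_pos)

/-- below every point of `λ⁺` the points are divided into `cf λ` sets of size less than `λ` -/
lemma exists_filtration {lam : Cardinal.{u}} (hlam : ℵ₀ ≤ lam)
    (hW : typeLT W = (succ lam).ord) (hΘ : typeLT Θ = lam.ord.cof.ord) :
    ∃ (r : W → W → Θ) (μ : Θ → Cardinal.{u}), (∀ j, μ j < lam) ∧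
      ∀ γ j, #{ξ : W // ξ < γ ∧ r γ ξ ≤ j} ≤ μ j := by
  obtain ⟨s, hs, hs'⟩ := Ordinal.exists_ord_cof_eq lam.ord.ToType
  rw [Ordinal.cof_toType, ← hΘ, Ordinal.type_eq] at hs'
  obtain ⟨e⟩ := hs'
  let f : Θ → lam.ord.ToType := fun j => (e.symm j).1
  have hf : ∀ {i j : Θ}, i ≤ j → f i ≤ f j := by
    intro i j hij
    rcases hij.lt_or_eq with h | h
    · exact (show f i < f j from e.symm.map_rel_iff.2 h).le
    · rw [h]
  have hρ : ∀ x : lam.ord.ToType, ∃ j, x ≤ f j := by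
    intro x
    obtain ⟨y, hy, hxy⟩ := hs x
    refine ⟨e ⟨y, hy⟩, ?_⟩
    show x ≤ (e.symm (e ⟨y, hy⟩)).1
    rw [e.symm_apply_apply]
    exact hxy
  choose ρ hρ using hρ
  obtain ⟨j0⟩ := nonempty_Θ hlam hΘ
  have hι : ∀ γ : W, Nonempty (Iio γ ↪ lam.ord.ToType) := by
    intro γ
    rw [← Cardinal.le_def, mk_ord_toType]
    exact mk_Iio_le hW γ
  classical
  have hno : NoMaxOrder lam.ord.ToType := Cardinal.noMaxOrder hlam
  refine ⟨fun γ ξ => if h : ξ < γ then ρ ((hι γ).some ⟨ξ, h⟩) else j0,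
    fun j => #(Iic (f j)), fun j => ?_, fun γ j => ?_⟩
  · obtain ⟨x, hx⟩ := hno.exists_gt (f j)
    refine (mk_le_mk_of_subset (t := Iio x) fun y hy => lt_of_le_of_lt hy hx).trans_lt ?_
    have h1 := mk_Iio_lt x (by rw [mk_ord_toType, Ordinal.type_toType])
    rwa [mk_ord_toType] at h1
  · refine mk_le_of_injective (f := fun ξ => (⟨(hι γ).some ⟨ξ.1, ξ.2.1⟩, ?_⟩ : Iic (f j))) ?_
    · have h1 := ξ.2.2
      simp only [dif_pos ξ.2.1] at h1
      exact (hρ _).trans (hf h1)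
    · intro x y hxy
      have h1 := (hι γ).some.injective (Subtype.ext_iff.1 hxy)
      exact Subtype.ext (congrArg (fun z : Iio γ => z.1) h1)

/-- at a point of cofinality different from that of `λ` a function to the cofinality of `λ` is
bounded on a cofinal set -/
lemma exists_level {lam : Cardinal.{u}} (hΘ : typeLT Θ = lam.ord.cof.ord) {γ : W}
    (hγ : cf γ ≠ lam.ord.cof) (p : W → Θ) : ∃ j, ∀ ξ < γ, ∃ α < γ, ξ ≤ α ∧ p α ≤ j := by
  rcases lt_or_gt_of_ne hγ with h | h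
  · obtain ⟨T, hT, hT'⟩ := exists_cof_eq (Iio γ)
    have h1 : BddAbove ((fun t : Iio γ => p t.1) '' T) := by
      refine bdd_of_lt (mk_image_le.trans_lt ?_)
      rw [cof_Θ hΘ, hT']
      exact h
    obtain ⟨j, hj⟩ := h1
    refine ⟨j, fun ξ hξ => ?_⟩
    obtain ⟨t, ht, h2⟩ := hT ⟨ξ, hξ⟩
    exact ⟨t.1, t.2, h2, hj ⟨t, ht, rfl⟩⟩
  · have h1 : IsCofinal (⋃ j : Θ, {t : Iio γ | p t.1 ≤ j}) := by
      intro t
      exact ⟨t, mem_iUnion.2 ⟨p t.1, le_rfl⟩, le_rfl⟩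
    obtain ⟨j, hj⟩ := isCofinal_of_isCofinal_iUnion h1 (by rw [mk_Θ hΘ]; exact h)
    refine ⟨j, fun ξ hξ => ?_⟩
    obtain ⟨t, ht, h2⟩ := hj ⟨ξ, hξ⟩
    exact ⟨t.1, t.2, h2, ht⟩

/-- without diamond, no family of `λ` candidates guesses the subsets of `λ⁺ × λ` -/
lemma kunen {lam : Cardinal.{u}} (hlam : ℵ₀ ≤ lam) (hW : typeLT W = (succ lam).ord)
    {Λ : Type u} (hΛ : #Λ = lam) {S : Set W} (hnd : ¬ Diamond S) (A : W → Λ → Set (W × Λ)) :
    ∃ (Z : Set (W × Λ)) (D : Set W), IsClub D ∧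
      ∀ β ∈ D, β ∈ S → ∀ η, {p | p ∈ Z ∧ p.1 < β} ≠ A β η := by
  have h1 : ∀ η : Λ, ∃ Z D : Set W, IsClub D ∧
      ∀ β ∈ D, β ∈ S → Z ∩ Iio β ≠ {ζ | ζ < β ∧ (ζ, η) ∈ A β η} := by
    intro η
    by_contra hcon
    push Not at hcon
    refine hnd ⟨fun β => {ζ | ζ < β ∧ (ζ, η) ∈ A β η}, fun β ζ hζ => hζ.1, fun Z D hD => ?_⟩
    obtain ⟨β, hβD, hβS, hβ⟩ := hcon Z D hD
    exact ⟨β, ⟨hβS, hβ⟩, hβD⟩
  choose Zf Df hDf hne using h1
  refine ⟨{p | p.1 ∈ Zf p.2}, ⋂ η, Df η, ?_, fun β hβD hβS η hη => ?_⟩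
  · refine IsClub.iInter ?_ ?_ hDf
    · rw [cof_W hlam hW]
      exact (hlam.trans_lt (lt_succ lam)).ne'
    · rw [lift_id, lift_id, hΛ, cof_W hlam hW]
      exact lt_succ lam
  · refine hne η β (mem_iInter.1 hβD _) hβS ?_
    ext ζ
    rw [← hη]
    exact ⟨fun h => ⟨h.2, h.1, h.2⟩, fun h => ⟨h.2.1, h.1⟩⟩

/-- ladders along which nothing diverges give diamond -/
theorem diamond_of_ladders {lam : Cardinal.{u}}
    (hlam : ℵ₀ ≤ lam) (hcf : lam.ord.cof ≤ lam) (hCH : 2 ^ lam = succ lam)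
    (hW : typeLT W = (succ lam).ord) (hΘ : typeLT Θ = lam.ord.cof.ord) {S : Set W}
    {C : W → Set (Set W)} (hC1 : ∀ β, #(C β) ≤ lam) (hC2 : ∀ β, ∀ c ∈ C β, #c < lam)
    (hdiv : ∀ (h : W → Θ) (D : Set W), IsClub D →
      ∃ β ∈ S ∩ D, ∃ c ∈ C β, ¬ DivergesAt h {γ | γ ∈ c ∧ γ ∈ D ∧ cf γ ≠ lam.ord.cof} β) :
    Diamond S := by
  classical
  have hcof := cof_W hlam hW
  have hcofne : Order.cof W ≠ ℵ₀ := by
    rw [hcof]
    exact (hlam.trans_lt (lt_succ lam)).ne'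
  have hcl : ∀ f : W → W, IsClub {β : W | ∀ ξ < β, f ξ < β} := club_closure
    (by rw [hcof]; exact hlam.trans_lt (lt_succ lam))
    (fun w => by rw [hcof]; exact (mk_Iio_le hW w).trans_lt (lt_succ lam)) (exists_gt hlam hW)
  set Λ : Type u := lam.ord.ToType with hΛdef
  have hΛ : #Λ = lam := mk_ord_toType lam
  have hΛ2 : #(Λ × Λ) = lam := by
    rw [mk_prod, lift_id, hΛ]
    exact mul_eq_self hlam
  obtain ⟨a, ha⟩ := exists_enum hlam hCH hW hΛ2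
  obtain ⟨r, μ, hμ, hr⟩ := exists_filtration hlam hW hΘ
  obtain ⟨j0⟩ := nonempty_Θ hlam hΘ
  by_contra hnd
  -- the triples
  let B : Set W → Θ → Set (W × W × W) := fun c j =>
    {t | t.1 ∈ c ∧ (t.2.1 < t.1 ∧ r t.1 t.2.1 ≤ j) ∧ t.2.2 < t.1 ∧ r t.1 t.2.2 ≤ j}
  have hB : ∀ (c : Set W) (j : Θ), #c < lam → #(B c j) < lam := by
    intro c j hc
    have h1 : #(B c j) ≤ #(Σ γ : c, {ξ : W // ξ < γ.1 ∧ r γ.1 ξ ≤ j} ×
        {ξ : W // ξ < γ.1 ∧ r γ.1 ξ ≤ j}) := by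
      refine mk_le_of_injective (f := fun t => ⟨⟨t.1.1, t.2.1⟩, ⟨t.1.2.1, t.2.2.1⟩,
        ⟨t.1.2.2, t.2.2.2⟩⟩) ?_
      rintro ⟨⟨x1, x2, x3⟩, hx⟩ ⟨⟨y1, y2, y3⟩, hy⟩ hxy
      simp only [Sigma.mk.injEq, Subtype.mk.injEq] at hxy
      obtain ⟨h2, h3⟩ := hxy
      subst h2
      simp only [heq_eq_eq, Prod.mk.injEq, Subtype.mk.injEq] at h3
      obtain ⟨h4, h5⟩ := h3
      subst h4
      subst h5
      rfl
    refine h1.trans_lt ?_
    rw [mk_sigma]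
    have h2 : ∀ γ : c, #({ξ : W // ξ < γ.1 ∧ r γ.1 ξ ≤ j} × {ξ : W // ξ < γ.1 ∧ r γ.1 ξ ≤ j})
        ≤ μ j * μ j := by
      intro γ
      rw [mk_prod, lift_id]
      exact mul_le_mul' (hr γ.1 j) (hr γ.1 j)
    refine (sum_le_sum _ (fun _ => μ j * μ j) h2).trans_lt ?_
    rw [sum_const, lift_id, lift_id]
    exact mul_lt_of_lt hlam hc (mul_lt_of_lt hlam (hμ j) (hμ j))
  -- the triples consistent with the sets `P τ'`, `τ' < τ`
  let Con : (Λ → Set (W × Λ)) → Λ → (W × W × W) → Prop := fun P τ t =>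
    ∀ q : W × Λ, (q.1, (τ, q.2)) ∈ a t.2.2 ↔ q ∈ P τ ∧ q.1 < t.2.1
  let G : (Λ → Set (W × Λ)) → Λ → Set W → Θ → Set (W × Λ) := fun P τ c j =>
    {q | ∃ t ∈ B c j, (∀ τ' < τ, Con P τ' t) ∧ (q.1, (τ, q.2)) ∈ a t.2.2}
  have he : ∀ β, Nonempty (C β × Θ ↪ Λ) := by
    intro β
    rw [← Cardinal.le_def, hΛ, mk_prod, lift_id, lift_id, mk_Θ hΘ]
    exact (mul_le_mul' (hC1 β) hcf).trans (mul_eq_self hlam).le
  have hstep : ∀ (τ : Λ) (P : Λ → Set (W × Λ)), ∃ (Z : Set (W × Λ)) (D : Set W), IsClub D ∧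
      ∀ β ∈ D, β ∈ S → ∀ c ∈ C β, ∀ j, {p | p ∈ Z ∧ p.1 < β} ≠ G P τ (c ∩ Iio β) j := by
    intro τ P
    obtain ⟨Z, D, hD, h1⟩ := kunen hlam hW hΛ hnd (fun β => Function.extend (he β).some
      (fun i => G P τ (i.1.1 ∩ Iio β) i.2) (fun _ => ∅))
    refine ⟨Z, D, hD, fun β hβ hβS c hc j => ?_⟩
    have h2 := h1 β hβ hβS ((he β).some (⟨c, hc⟩, j))
    rwa [(he β).some.injective.extend_apply] at h2
  choose Zc Dc hDc hZc using hstep
  let Zf : Λ → Set (W × Λ) := WellFounded.fix (wellFounded_lt (α := Λ))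
    (fun τ ih => Zc τ (fun τ' => if h : τ' < τ then ih τ' h else ∅))
  let Pf : Λ → Λ → Set (W × Λ) := fun τ τ' => if τ' < τ then Zf τ' else ∅
  have hZf : ∀ τ, Zf τ = Zc τ (Pf τ) := by
    intro τ
    have h1 := WellFounded.fix_eq (wellFounded_lt (α := Λ))
      (fun τ ih => Zc τ (fun τ' => if h : τ' < τ then ih τ' h else ∅)) τ
    exact h1
  have hPf : ∀ {τ τ' : Λ}, τ' < τ → ∀ t, Con (Pf τ) τ' t ↔ Con Zf τ' t := by
    intro τ τ' h t
    have h1 : Pf τ τ' = Zf τ' := if_pos h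
    simp only [Con, h1]
  have hDt : IsClub (⋂ τ, Dc τ (Pf τ)) := by
    refine IsClub.iInter hcofne ?_ fun τ => hDc τ (Pf τ)
    rw [lift_id, lift_id, hΛ, hcof]
    exact lt_succ lam
  choose g hg using ha {p : W × Λ × Λ | (p.1, p.2.2) ∈ Zf p.2.1}
  choose s hs using exists_gt hlam hW
  have hD := (hDt.inter hcofne ((hcl g).inter hcofne (hcl s)))
  -- the function
  have h2 : ∀ γ : W, ∃ j : Θ, cf γ ≠ lam.ord.cof →
      ∀ ξ < γ, ∃ α < γ, ξ ≤ α ∧ max (r γ α) (r γ (g α)) ≤ j := by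
    intro γ
    by_cases hγ : cf γ ≠ lam.ord.cof
    · obtain ⟨j, hj⟩ := exists_level hΘ hγ (fun α => max (r γ α) (r γ (g α)))
      exact ⟨j, fun _ => hj⟩
    · exact ⟨j0, fun h => absurd h hγ⟩
  choose h hh using h2
  obtain ⟨β, ⟨hβS, hβD⟩, c, hc, hnot⟩ := hdiv h _ hD
  unfold DivergesAt at hnot
  push Not at hnot
  obtain ⟨j, hj⟩ := hnot
  have hcon : ∀ τ α, ∀ γ, Con Zf τ (γ, α, g α) := by
    intro τ α γ q
    show (q.1, (τ, q.2)) ∈ a (g α) ↔ _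
    rw [hg α]
    rfl
  -- a triple is lost at every step
  have hlost : ∀ τ : Λ, ∃ t ∈ B (c ∩ Iio β) j, (∀ τ' < τ, Con Zf τ' t) ∧ ¬ Con Zf τ t := by
    intro τ
    by_contra hno
    push Not at hno
    refine hZc τ (Pf τ) β (mem_iInter.1 hβD.1 τ) hβS c hc j ?_
    rw [← hZf τ]
    ext q
    constructor
    · rintro ⟨hqZ, hqβ⟩
      obtain ⟨γ, ⟨hγc, hγD, hγcf⟩, hγ1, hγβ, hγj⟩ := hj q.1 hqβ
      have h3 : s q.1 < γ := hγD.2.2 q.1 hγ1
      obtain ⟨α, hα, hsα, hrα⟩ := hh γ hγcf (s q.1) h3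
      rw [max_le_iff] at hrα
      refine ⟨(γ, α, g α), ⟨⟨hγc, hγβ⟩, ⟨hα, hrα.1.trans hγj⟩, hγD.2.1 α hα, hrα.2.trans hγj⟩,
        fun τ' hτ' => (hPf hτ' _).2 (hcon τ' α γ), ?_⟩
      exact (hcon τ α γ q).2 ⟨hqZ, (hs q.1).trans_le hsα⟩
    · rintro ⟨t, htB, ht, hq⟩
      have h3 := hno t htB (fun τ' hτ' => (hPf hτ' _).1 (ht τ' hτ'))
      have h4 := (h3 q).1 hq
      exact ⟨h4.1, h4.2.trans (htB.2.1.1.trans htB.1.2)⟩
  choose t htB ht1 ht2 using hlost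
  have hinj : Function.Injective (fun τ : Λ => (⟨t τ, htB τ⟩ : B (c ∩ Iio β) j)) := by
    intro τ1 τ2 h12
    have h3 : t τ1 = t τ2 := congrArg (fun z : B (c ∩ Iio β) j => z.1) h12
    rcases lt_trichotomy τ1 τ2 with h4 | h4 | h4
    · exact absurd (h3 ▸ ht1 τ2 τ1 h4) (ht2 τ1)
    · exact h4
    · exact absurd (h3 ▸ ht1 τ1 τ2 h4) (ht2 τ2)
  have h5 := mk_le_of_injective hinj
  rw [hΛ] at h5
  exact absurd h5 (not_le.2 (hB _ j ((mk_le_mk_of_subset inter_subset_left).trans_lt (hC2 β c hc))))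

end Succ

/-- `W` is `λ⁺` and `Θ` is the cofinality of `λ`, where `λ` is singular and `2 ^ λ = λ⁺`; `μ < λ` is
any regular cardinal different from the cofinality of `λ`.  Equivalent: diamond fails on `S`; for every
ladder system on `S` some `h : λ⁺ → cf λ` diverges along the points of cofinality `μ` of the ladders in
some club; for every sequence of length `λ⁺` of families of at most `λ` sets of size less than `λ` some
`h` diverges along the points of cofinality different from `cf λ` of all these sets; for every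
`d : [λ⁺]² → cf λ` with small sections there is `h` such that the maximum of `d α β` and `h α` diverges
when `α` tends to `β` through the points of cofinality different from `cf λ` of some club. -/
theorem result {W Θ : Type u} [LinearOrder W] [WellFoundedLT W] [LinearOrder Θ] [WellFoundedLT Θ]
    (lam μ : Cardinal.{u}) (hinf : ℵ₀ ≤ lam) (hsing : lam.ord.cof < lam)
    (hCH : 2 ^ lam = succ lam) (hμ : μ.IsRegular) (hμl : μ < lam) (hμc : μ ≠ lam.ord.cof)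
    (hW : typeLT W = (succ lam).ord) (hΘ : typeLT Θ = lam.ord.cof.ord) (S : Set W) :
    List.TFAE [¬ Diamond S,
      ∀ c : W → Set W, (∀ β, #(c β) ≤ cf β) →
        ∃ (h : W → Θ) (D : Set W), IsClub D ∧ ∀ β ∈ S ∩ D,
          DivergesAt h {γ | γ ∈ c β ∧ γ ∈ D ∧ cf γ = μ} β,
      ∀ C : W → W → Set (Set W), (∀ ζ β, #(C ζ β) ≤ lam ∧ ∀ c ∈ C ζ β, #c < lam) →
        ∃ (h : W → Θ) (D : Set W), IsClub D ∧ ∀ β ∈ S ∩ D, ∀ ζ < β, ∀ c ∈ C ζ β,
          DivergesAt h {γ | γ ∈ c ∧ γ ∈ D ∧ cf γ ≠ lam.ord.cof} β,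
      ∀ d : W → W → Θ, (∀ β j, #{α : W // α < β ∧ d α β ≤ j} < lam) →
        ∃ (h : W → Θ) (D : Set W), IsClub D ∧ ∀ β ∈ S ∩ D,
          DivergesAt (fun α => max (d α β) (h α)) {α | α ∈ D ∧ cf α ≠ lam.ord.cof} β] := by
  tfae_have 1 → 3 := by
    intro h1 C hC
    by_contra hno
    have hw : Nonempty W := by
      rw [← mk_ne_zero_iff, mk_W hW]
      exact (bot_lt_succ lam).ne'
    have hIio : ∀ β : W, #(⋃ ζ : Iio β, C ζ.1 β : Set (Set W)) ≤ lam := by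
      intro β
      refine (mk_iUnion_le_sum_mk).trans ?_
      refine (sum_le_sum _ (fun _ => lam) fun ζ : Iio β => (hC ζ.1 β).1).trans ?_
      rw [sum_const, lift_id, lift_id]
      exact (mul_le_mul' (mk_Iio_le hW β) le_rfl).trans (mul_eq_self hinf).le
    refine h1 (diamond_of_ladders (Θ := Θ) hinf hsing.le hCH hW hΘ
      (C := fun β => ⋃ ζ : Iio β, C ζ.1 β) hIio ?_ fun h D hD => ?_)
    · intro β c hc
      obtain ⟨ζ, hζ⟩ := mem_iUnion.1 hc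
      exact (hC ζ.1 β).2 c hζ
    · by_contra hcon
      push Not at hcon
      exact hno ⟨h, D, hD, fun β hβ ζ hζ c hc => hcon β hβ c (mem_iUnion.2 ⟨⟨ζ, hζ⟩, hc⟩)⟩
  tfae_have 3 → 4 := by
    intro h3 d hd
    obtain ⟨w0⟩ : Nonempty W := by
      rw [← mk_ne_zero_iff, mk_W hW]
      exact (bot_lt_succ lam).ne'
    obtain ⟨h, D, hD, h4⟩ := h3 (fun _ β => range fun j : Θ => {α | α < β ∧ d α β ≤ j}) fun _ β =>
      ⟨mk_range_le.trans (by rw [mk_Θ hΘ]; exact hsing.le), by rintro _ ⟨j, rfl⟩; exact hd β j⟩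
    refine ⟨h, D ∩ Ioi w0, hD.inter ?_ (club_Ioi (exists_gt hinf hW) w0), fun β hβ j => ?_⟩
    · rw [cof_W hinf hW]
      exact (hinf.trans_lt (lt_succ lam)).ne'
    obtain ⟨ξ, hξ, h5⟩ := h4 β ⟨hβ.1, hβ.2.1⟩ w0 hβ.2.2 _ ⟨j, rfl⟩ j
    refine ⟨ξ, hξ, fun α hα hξα hαβ => ?_⟩
    rcases le_or_gt (d α β) j with h6 | h6
    · exact (h5 α ⟨⟨hαβ, h6⟩, hα.1.1, hα.2⟩ hξα hαβ).trans_le (le_max_right _ _)
    · exact h6.trans_le (le_max_left _ _)
  tfae_have 4 → 2 := by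
    classical
    intro h4 c hc
    obtain ⟨r, ν, hν, hr⟩ := exists_filtration hinf hW hΘ
    have hne := nonempty_Θ hinf hΘ
    let b : Θ := WellFounded.min (wellFounded_lt (α := Θ)) Set.univ ⟨hne.some, trivial⟩
    have hb : ∀ j : Θ, b ≤ j := fun j => not_lt.1 (WellFounded.not_lt_min _ _ (mem_univ j))
    obtain ⟨h, D, hD, h5⟩ := h4 (fun α β => if α ∈ c β then b else r β α) (by
      intro β j
      refine lt_of_le_of_lt (b := #(↥(c β ∪ {ξ : W | ξ < β ∧ r β ξ ≤ j}))) ?_ ?_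
      · refine mk_le_mk_of_subset ?_
        rintro α ⟨h6, h7⟩
        by_cases h8 : α ∈ c β
        · exact Or.inl h8
        · rw [if_neg h8] at h7
          exact Or.inr ⟨h6, h7⟩
      · refine (mk_union_le _ _).trans_lt (add_lt_of_lt hinf ((hc β).trans_lt (cf_lt hsing hW β)) ?_)
        exact (hr β j).trans_lt (hν j))
    refine ⟨h, D, hD, fun β hβ j => ?_⟩
    obtain ⟨ξ, hξ, h6⟩ := h5 β hβ j
    refine ⟨ξ, hξ, fun γ hγ h7 h8 => ?_⟩
    have h10 := h6 γ ⟨hγ.2.1, by rw [hγ.2.2]; exact hμc⟩ h7 h8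
    simp only [if_pos hγ.1, lt_max_iff] at h10
    exact h10.resolve_left (not_lt.2 (hb j))
  tfae_have 2 → 1 := by
    intro h2 hS
    obtain ⟨c, hc1, hc2⟩ := ladders_of_diamond (Θ := Θ) hinf hμ hμl.le hW
      (by rw [mk_Θ hΘ]; exact hsing.le) hS
    obtain ⟨h, D, hD, h3⟩ := h2 c hc1
    obtain ⟨β, hβ, h4⟩ := hc2 h D hD
    exact h4 (h3 β hβ)
  tfae_finish

end Pool.Agent.Results.MP_82b723_lc.DivergingLadders
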